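import Pool.Agent.P.MP_ab0431_ag.GR.Main

open Pool.Agent.P.MP_ab0431_ag

/-- The number of families of surfaces with very ample `m`-th power of the dualising sheaf and
plurigenera bounded by `y` lies between `y ^ (y / C)` and `y ^ (C y)`. -/
theorem Pool.Agent.Results.MP_ab0431_ag.Growth.result :
    ∃ m₀ : ℕ, ∀ m ≥ m₀, ∃ C > 0, ∀ P : DSurf → Prop, (∀ X, Function.Surjective X.ι → P X) →
      ∀ y ≥ C, ((y ^ (y / C) : ℕ) : ℕ∞) ≤ NFam P m y ∧ NFam P m y ≤ (y ^ (C * y) : ℕ) :=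
  GR.growth GR.t_HOM GR.t_PI1 GR.t_ABS2 GR.t_TOD GR.t_ARI
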