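import Pool.Agent.P.MP_ab0431_ag.B.Final

open Pool.Agent.P.MP_ab0431_ag

/-- Exponentially many regular unramified covers of one surface with ample canonical bundle,
of the same degree, with pairwise non-isomorphic fundamental groups. -/
theorem Pool.Agent.Results.MP_ab0431_ag.Regular.result :
    ∃ (X : Surf) (C : ℕ), ∀ n : ℕ, ∃ d : ℕ, 0 < d ∧ d ≤ C * (n + 1) ∧
    ∃ (Y : Fin (2 ^ n) → Surf) (y : ∀ i, (Y i).X),
      (∀ i, IsCover (Y i) X d ∧
        ∀ f : FundamentalGroup (Y i).X (y i) →* Multiplicative ℝ, f = 1) ∧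
      Pairwise fun i j =>
        IsEmpty (FundamentalGroup (Y i).X (y i) ≃* FundamentalGroup (Y j).X (y j)) :=
  T.regular T.all_ABS T.all_DAT T.all_GRP
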