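import Pool.Agent.P.MP_ab0431_ag.UB2.Main

open Pool.Agent.P.MP_ab0431_ag

/-- Among more than `(y + 2) ^ (C (y + 1))` surfaces with isolated double points, very ample
`m`-th power of the dualising sheaf and plurigenera bounded by `y`, two are fibres of one family
over a connected open subset of the line. -/
theorem Pool.Agent.Results.MP_ab0431_ag.UpperAll.result :
    ∀ m : ℕ, 0 < m → ∃ C : ℕ, ∀ (y n : ℕ) (X : Fin n → DSurf),
      (y + 2) ^ (C * (y + 1)) < n → (∀ i, DAmple (X i) m ∧ KsqLe (X i).X y) →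
      ∃ i j, i ≠ j ∧ DFamily (X i) (X j) :=
  UB.V2.t_MAIN
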